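import Pool.Agent.H67.AG.T1
import Pool.Agent.H67.AG.T3
import Pool.Agent.H67.AG.T4

/-!
ABSOLUTE GAP (`MP_c59857_nt`), row DR: the dichotomy for the rational sets.
-/

set_option autoImplicit false
set_option linter.unusedSectionVars false

open MeasureTheory ProbabilityTheory Filter Topology Finset
open scoped Nat ENNReal

namespace Pool.Agent.H70.AG.DR

open Pool.Agent.H67.AG

section gen

variable {Ω : Type} [mΩ : MeasurableSpace Ω]

theorem inv_le (T : Ω ≃ᵐ Ω) (n : ℕ) : Inv T n ≤ mΩ := MeasurableSpace.invariants_le _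

theorem rt_le (T : Ω ≃ᵐ Ω) : Rt T ≤ mΩ := iSup_le fun w => inv_le T (w !)

theorem inv_mono (T : Ω ≃ᵐ Ω) {a b : ℕ} (h : a ∣ b) : Inv T a ≤ Inv T b := by
  obtain ⟨c, rfl⟩ := h
  have h := MeasurableSpace.le_invariants_iterate (T^[a]) c
  rwa [← Function.iterate_mul] at h

theorem inv_le_rt (T : Ω ≃ᵐ Ω) {n : ℕ} (hn : 0 < n) : Inv T n ≤ Rt T :=
  (inv_mono T (Nat.dvd_factorial hn le_rfl)).trans (le_iSup (fun w : ℕ => Inv T (w !)) n)

end gen

section gen2

variable {Ω : Type} {m m' : MeasurableSpace Ω} [mΩ : MeasurableSpace Ω]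
  {k : ℕ} (P : Measure Ω) [IsProbabilityMeasure P]

theorem dl_meas {y y' : Fin k → Ω → ℝ} (hy : Tup y) (hy' : Tup y') (i : Fin k) :
    Measurable (dl y y' i) := by
  unfold dl
  exact Measurable.ite (measurableSet_eq_fun (hy.1 i) (hy'.1 i)) measurable_const measurable_const

theorem dl_bd (y y' : Fin k → Ω → ℝ) (i : Fin k) (ω : Ω) :
    0 ≤ dl y y' i ω ∧ dl y y' i ω ≤ 1 := by
  unfold dl
  split_ifs <;> norm_num

theorem dl_int {y y' : Fin k → Ω → ℝ} (hy : Tup y) (hy' : Tup y') (i : Fin k) :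
    Integrable (dl y y' i) P := by
  refine Integrable.of_bound (dl_meas hy hy' i).aestronglyMeasurable 1 (Eventually.of_forall ?_)
  intro ω
  rw [Real.norm_eq_abs, abs_of_nonneg (dl_bd y y' i ω).1]
  exact (dl_bd y y' i ω).2

theorem ce_bd {y y' : Fin k → Ω → ℝ} (hy : Tup y) (hy' : Tup y') (i : Fin k)
    (hm : m ≤ mΩ) :
    ∀ᵐ ω ∂P, 0 ≤ (P[dl y y' i | m]) ω ∧ (P[dl y y' i | m]) ω ≤ 1 := by
  have h0 : 0 ≤ᵐ[P] P[dl y y' i | m] :=
    condExp_nonneg (Eventually.of_forall fun ω => (dl_bd y y' i ω).1)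
  have h1 : P[dl y y' i | m] ≤ᵐ[P] P[(fun _ => (1 : ℝ)) | m] :=
    condExp_mono (dl_int P hy hy' i) (integrable_const _)
      (Eventually.of_forall fun ω => (dl_bd y y' i ω).2)
  rw [condExp_const hm] at h1
  filter_upwards [h0, h1] with ω a b
  exact ⟨a, b⟩

theorem mis_bd {y y' : Fin k → Ω → ℝ} (hy : Tup y) (hy' : Tup y')
    (hm : m ≤ mΩ) :
    ∀ᵐ ω ∂P, 0 ≤ Mis P m y y' ω ∧ Mis P m y y' ω ≤ k := by
  have h : ∀ᵐ ω ∂P, ∀ i, 0 ≤ (P[dl y y' i | m]) ω ∧ (P[dl y y' i | m]) ω ≤ 1 :=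
    ae_all_iff.2 fun i => ce_bd P hy hy' i hm
  filter_upwards [h] with ω hω
  refine ⟨sum_nonneg fun i _ => (hω i).1, ?_⟩
  refine (sum_le_sum fun i _ => (hω i).2).trans ?_
  simp

theorem mis_meas (y y' : Fin k → Ω → ℝ) :
    Measurable[m] (Mis P m y y') := by
  have : Mis P m y y' = fun ω => ∑ i, (P[dl y y' i | m]) ω := rfl
  rw [this]
  exact Finset.measurable_sum _ fun i _ => stronglyMeasurable_condExp.measurable

theorem mis_int {y y' : Fin k → Ω → ℝ} (hy : Tup y) (hy' : Tup y')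
    (hm : m ≤ mΩ) :
    Integrable (fun ω => Mis P m y y' ω - Mis P m y y' ω ^ 2) P := by
  have hM : Measurable (Mis P m y y') := (mis_meas P y y').mono hm le_rfl
  refine Integrable.of_bound (hM.sub (hM.pow_const 2)).aestronglyMeasurable (k + k ^ 2) ?_
  filter_upwards [mis_bd P hy hy' hm] with ω hω
  rw [Real.norm_eq_abs, abs_le]
  constructor <;> nlinarith [hω.1, hω.2, mul_nonneg hω.1 (sub_nonneg.2 hω.2)]

/-- the mismatch with respect to the rational sets and to a power -/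
theorem mis_close {y y' : Fin k → Ω → ℝ} (hy : Tup y) (hy' : Tup y') (A : Set Ω)
    (hm : m ≤ mΩ) (hm' : m' ≤ mΩ) (ε : ℝ)
    (h : ∀ i, ∫ ω, |(P[dl y y' i | m]) ω - (P[dl y y' i | m']) ω| ∂P ≤ ε) :
    ∫ ω in A, (Mis P m y y' ω - Mis P m y y' ω ^ 2) ∂P ≤
      ∫ ω in A, (Mis P m' y y' ω - Mis P m' y y' ω ^ 2) ∂P + (1 + 2 * k) * (k * ε) := by
  set G : Ω → ℝ := fun ω => (1 + 2 * k) * ∑ i, |(P[dl y y' i | m]) ω - (P[dl y y' i | m']) ω|
    with hG
  have hGi : Integrable G P := by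
    refine Integrable.const_mul ?_ _
    exact integrable_finsetSum _ fun i _ => (integrable_condExp.sub integrable_condExp).abs
  have hG0 : ∀ ω, 0 ≤ G ω := fun ω => by
    rw [hG]
    positivity
  have key : ∀ᵐ ω ∂P, Mis P m y y' ω - Mis P m y y' ω ^ 2 ≤
      (Mis P m' y y' ω - Mis P m' y y' ω ^ 2) + G ω := by
    filter_upwards [mis_bd P hy hy' hm, mis_bd P hy hy' hm'] with ω h1 h2
    have h3 : |Mis P m y y' ω - Mis P m' y y' ω| ≤
        ∑ i, |(P[dl y y' i | m]) ω - (P[dl y y' i | m']) ω| := by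
      unfold Mis
      rw [← Finset.sum_sub_distrib]
      exact Finset.abs_sum_le_sum_abs _ _
    have h4 : Mis P m y y' ω - Mis P m y y' ω ^ 2 - (Mis P m' y y' ω - Mis P m' y y' ω ^ 2) =
        (Mis P m y y' ω - Mis P m' y y' ω) * (1 - Mis P m y y' ω - Mis P m' y y' ω) := by ring
    have h5 : |1 - Mis P m y y' ω - Mis P m' y y' ω| ≤ 1 + 2 * k := by
      rw [abs_le]
      constructor <;> linarith [h1.1, h1.2, h2.1, h2.2]
    have h6 : (Mis P m y y' ω - Mis P m' y y' ω) * (1 - Mis P m y y' ω - Mis P m' y y' ω) ≤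
        (∑ i, |(P[dl y y' i | m]) ω - (P[dl y y' i | m']) ω|) * (1 + 2 * k) := by
      refine (le_abs_self _).trans ?_
      rw [abs_mul]
      exact mul_le_mul h3 h5 (abs_nonneg _) ((abs_nonneg _).trans h3)
    have h7 : G ω = (∑ i, |(P[dl y y' i | m]) ω - (P[dl y y' i | m']) ω|) * (1 + 2 * k) := by
      rw [hG]
      ring
    linarith
  have hi := mis_int P hy hy' hm
  have hi' := mis_int P hy hy' hm'
  calc ∫ ω in A, (Mis P m y y' ω - Mis P m y y' ω ^ 2) ∂P
      ≤ ∫ ω in A, ((Mis P m' y y' ω - Mis P m' y y' ω ^ 2) + G ω) ∂P := by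
        refine setIntegral_mono_ae_restrict hi.integrableOn (hi'.add hGi).integrableOn ?_
        exact ae_restrict_of_ae key
    _ = ∫ ω in A, (Mis P m' y y' ω - Mis P m' y y' ω ^ 2) ∂P + ∫ ω in A, G ω ∂P :=
        integral_add hi'.integrableOn hGi.integrableOn
    _ ≤ ∫ ω in A, (Mis P m' y y' ω - Mis P m' y y' ω ^ 2) ∂P + (1 + 2 * k) * (k * ε) := by
        gcongr
        calc ∫ ω in A, G ω ∂P ≤ ∫ ω, G ω ∂P :=
              setIntegral_le_integral hGi (Eventually.of_forall hG0)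
          _ = (1 + 2 * k) * ∑ i, ∫ ω, |(P[dl y y' i | m]) ω - (P[dl y y' i | m']) ω| ∂P := by
              rw [hG, integral_const_mul, integral_finsetSum]
              exact fun i _ => (integrable_condExp.sub integrable_condExp).abs
          _ ≤ (1 + 2 * k) * (k * ε) := by
              gcongr
              refine (sum_le_sum fun i _ => h i).trans ?_
              simp

end gen2

section pair

variable {X : Type} [mX : MeasurableSpace X]

theorem tt_iter (T : X ≃ᵐ X) (n : ℕ) (q : X × X) : (TT T)^[n] q = (T^[n] q.1, T^[n] q.2) := by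
  induction n generalizing q with
  | zero => rfl
  | succ n ih =>
    rw [Function.iterate_succ_apply, ih, Function.iterate_succ_apply, Function.iterate_succ_apply]
    rfl

theorem fst_meas (T : X ≃ᵐ X) : @Measurable _ _ (Rt (TT T)) (Rt T) (Prod.fst : X × X → X) := by
  have h : Rt T ≤ (Rt (TT T)).map (Prod.fst : X × X → X) := iSup_le fun w A hA => by
    have h1 : MeasurableSet[Inv (TT T) (w !)] ((Prod.fst : X × X → X) ⁻¹' A) := by
      refine ⟨measurable_fst hA.1, ?_⟩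
      ext q
      have h2 : T^[w !] q.1 ∈ A ↔ q.1 ∈ A := by
        conv_rhs => rw [← hA.2]
        rfl
      simpa [tt_iter] using h2
    exact le_iSup (fun w : ℕ => Inv (TT T) (w !)) w _ h1
  exact fun A hA => h A hA

theorem snd_meas (T : X ≃ᵐ X) : @Measurable _ _ (Rt (TT T)) (Rt T) (Prod.snd : X × X → X) := by
  have h : Rt T ≤ (Rt (TT T)).map (Prod.snd : X × X → X) := iSup_le fun w A hA => by
    have h1 : MeasurableSet[Inv (TT T) (w !)] ((Prod.snd : X × X → X) ⁻¹' A) := by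
      refine ⟨measurable_snd hA.1, ?_⟩
      ext q
      have h2 : T^[w !] q.2 ∈ A ↔ q.2 ∈ A := by
        conv_rhs => rw [← hA.2]
        rfl
      simpa [tt_iter] using h2
    exact le_iSup (fun w : ℕ => Inv (TT T) (w !)) w _ h1
  exact fun A hA => h A hA

end pair

theorem pf_DR (hdw : T_DW) (hle : T_LE) (hra : T_RA) (hlv : T_LV) : T_DR := by
  intro c P hP hTP h1 h2
  set M : c.X × c.X → ℝ := Mis P (Rt (TT c.T)) c.D1 c.D2 with hM
  have hD : Tup c.Dt := ⟨fun i => c.Dm.comp (c.T.measurable.iterate _), fun i x => c.Dv _⟩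
  have hD1 : Tup c.D1 := ⟨fun i => (hD.1 i).comp measurable_fst, fun i q => hD.2 i q.1⟩
  have hD2 : Tup c.D2 := ⟨fun i => (hD.1 i).comp measurable_snd, fun i q => hD.2 i q.2⟩
  have hf1 : Fac P (TT c.T) c.μ c.T (Prod.fst : c.X × c.X → c.X) := ⟨h1, fun q => rfl⟩
  have hf2 : Fac P (TT c.T) c.μ c.T (Prod.snd : c.X × c.X → c.X) := ⟨h2, fun q => rfl⟩
  have he1 : Measurable[Rt (TT c.T)] fun q : c.X × c.X => c.e q.1 := c.em.comp (fst_meas c.T)
  have he2 : Measurable[Rt (TT c.T)] fun q : c.X × c.X => c.e q.2 := c.em.comp (snd_meas c.T)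
  have hei : ∀ g : c.X × c.X → c.X, (Measurable[Rt (TT c.T)] fun q => c.e (g q)) →
      Integrable (fun q => c.e (g q)) P := fun g hg => by
    refine Integrable.of_bound (hg.mono (rt_le _) le_rfl).aestronglyMeasurable 1
      (Eventually.of_forall fun q => ?_)
    rw [Real.norm_eq_abs, abs_of_nonneg (c.e0 _).1]
    exact (c.e0 _).2
  have hMm : Measurable[Rt (TT c.T)] M := mis_meas P _ _
  have hMi : Integrable (fun q => M q - M q ^ 2) P := mis_int P hD1 hD2 (rt_le _)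
  have key := hra (c.X × c.X) P (TT c.T) c.Q (fun q => M q - M q ^ 2 - c.e q.1 - c.e q.2)
    {q | q.1 ∈ c.Y ∧ q.2 ∈ c.Y} c.Qpos (((hMm.sub (hMm.pow_const 2)).sub he1).sub he2)
    ((hMi.sub (hei _ he1)).sub (hei _ he2)) ?_ ?_
  · filter_upwards [key] with q hq y1 y2
    have := hq ⟨y1, y2⟩
    linarith
  · refine ⟨(measurable_fst c.Ym).inter (measurable_snd c.Ym), ?_⟩
    ext q
    have hy : ∀ x : c.X, c.T^[c.Q] x ∈ c.Y ↔ x ∈ c.Y := fun x => by
      conv_rhs => rw [← c.Yinv]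
      rfl
    simp [tt_iter, hy]
  · intro w1 A hA hAB
    have hAm : MeasurableSet A := hA.1
    have hpos : ∀ w : ℕ, 0 < c.W w := fun w => Nat.mul_pos c.Qpos (Nat.factorial_pos w)
    have hAr : MeasurableSet[Rt (TT c.T)] A := inv_le_rt (TT c.T) (hpos w1) A hA
    have hDl : 0 < Dlt c.β := by
      unfold Dlt
      refine Finset.prod_pos fun i _ => Finset.prod_pos fun j _ => ?_
      split_ifs with h
      · exact one_pos
      · rw [Int.natAbs_pos, sub_ne_zero]
        exact_mod_cast h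
    -- the estimate with an error
    have est : ∀ ε : ℝ, 0 < ε → ∫ q in A, (M q - M q ^ 2) ∂P ≤
        ∫ q in A, c.e q.1 ∂P + ∫ q in A, c.e q.2 ∂P +
          (3 + 2 * (c.k : ℝ) ^ 2 + (1 + 2 * c.k) * c.k) * ε := by
      intro ε hε
      have l1 := hle c (c.X × c.X) P (TT c.T) Prod.fst A hTP hf1 hAr fun q hq => (hAB hq).1
      have l2 := hle c (c.X × c.X) P (TT c.T) Prod.snd A hTP hf2 hAr fun q hq => (hAB hq).2
      have l1' := l1.eventually (gt_mem_nhds (lt_add_of_pos_right _ hε))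
      have l2' := l2.eventually (gt_mem_nhds (lt_add_of_pos_right _ hε))
      have hch : ∀ i : Fin c.k, ∃ w₀ : ℕ, ∀ W : ℕ, 0 < W → w₀ ! ∣ W →
          ∫ q, |(P[dl c.D1 c.D2 i | Rt (TT c.T)]) q - (P[dl c.D1 c.D2 i | Inv (TT c.T) W]) q| ∂P
            ≤ ε := fun i =>
        hlv (c.X × c.X) P (TT c.T) (dl c.D1 c.D2 i) ε (dl_meas hD1 hD2 i)
          ⟨1, fun q => by
            rw [abs_of_nonneg (dl_bd _ _ i q).1]
            exact (dl_bd _ _ i q).2⟩ hε
      choose w₀ hw₀ using hch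
      have hW : ∀ᶠ w in (c.V : Filter ℕ), w1 ≤ w ∧ 1 ≤ w ∧ (∑ i, w₀ i) ≤ w ∧
          (c.k : ℝ) ^ 2 / w ≤ ε := by
        refine c.hV ?_
        have t : Tendsto (fun w : ℕ => (c.k : ℝ) ^ 2 / w) atTop (𝓝 0) :=
          tendsto_const_div_atTop_nhds_zero_nat _
        filter_upwards [eventually_ge_atTop w1, eventually_ge_atTop 1,
          eventually_ge_atTop (∑ i, w₀ i), t.eventually (ge_mem_nhds hε)] with w a1 a2 a3 a4
        exact ⟨a1, a2, a3, a4⟩
      obtain ⟨w, ⟨⟨a1, a2, a3, a4⟩, a5⟩, a6⟩ := ((hW.and l1').and l2').exists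
      have hwW : w ! ∣ c.W w := Dvd.intro_left _ rfl
      have hAw : MeasurableSet[Inv (TT c.T) (c.W w)] A :=
        inv_mono (TT c.T) (Nat.mul_dvd_mul_left _ (Nat.factorial_dvd_factorial a1)) A hA
      have d := hdw (c.X × c.X) P (TT c.T) c.k c.β c.σ w (c.W w) (c.U w) c.D1 c.D2 A hTP c.inj
        c.σv a2 (hpos w) hwW (c.hU w) hD1 hD2 hAw
      have hi : ∀ i, (w₀ i)! ∣ c.W w := fun i => by
        have : w₀ i ≤ w :=
          (Finset.single_le_sum (f := w₀) (fun j _ => Nat.zero_le _) (mem_univ i)).trans a3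
        exact (Nat.factorial_dvd_factorial this).trans hwW
      have e1 : ∀ i, ∫ q, |(P[dl c.D1 c.D2 i | Rt (TT c.T)]) q -
          (P[dl c.D1 c.D2 i | Inv (TT c.T) (c.W w)]) q| ∂P ≤ ε := fun i =>
        hw₀ i _ (hpos w) (hi i)
      have e2 : ∀ i, ∫ q, |(P[dl c.D1 c.D2 i | Rt (TT c.T)]) q -
          (P[dl c.D1 c.D2 i | Inv (TT c.T) (c.W w * Dlt c.β)]) q| ∂P ≤ ε := fun i =>
        hw₀ i _ (Nat.mul_pos (hpos w) hDl) ((hi i).trans (Dvd.intro _ rfl))
      have b1 := mis_close P hD1 hD2 A (rt_le (TT c.T)) (inv_le (TT c.T) (c.W w)) ε e1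
      have b2 : ∀ i : Fin c.k, ∫ q in A, |(P[dl c.D1 c.D2 i | Inv (TT c.T) (c.W w * Dlt c.β)]) q -
          (P[dl c.D1 c.D2 i | Inv (TT c.T) (c.W w)]) q| ∂P ≤ 2 * ε := fun i => by
        have i1 : Integrable (fun q => |(P[dl c.D1 c.D2 i | Inv (TT c.T) (c.W w * Dlt c.β)]) q -
          (P[dl c.D1 c.D2 i | Inv (TT c.T) (c.W w)]) q|) P :=
          (integrable_condExp.sub integrable_condExp).abs
        have i2 : Integrable (fun q => |(P[dl c.D1 c.D2 i | Rt (TT c.T)]) q -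
          (P[dl c.D1 c.D2 i | Inv (TT c.T) (c.W w)]) q|) P :=
          (integrable_condExp.sub integrable_condExp).abs
        have i3 : Integrable (fun q => |(P[dl c.D1 c.D2 i | Rt (TT c.T)]) q -
          (P[dl c.D1 c.D2 i | Inv (TT c.T) (c.W w * Dlt c.β)]) q|) P :=
          (integrable_condExp.sub integrable_condExp).abs
        refine (setIntegral_le_integral i1 (Eventually.of_forall fun q => abs_nonneg _)).trans ?_
        have : ∫ q, |(P[dl c.D1 c.D2 i | Inv (TT c.T) (c.W w * Dlt c.β)]) q -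
          (P[dl c.D1 c.D2 i | Inv (TT c.T) (c.W w)]) q| ∂P ≤
          ∫ q, (|(P[dl c.D1 c.D2 i | Rt (TT c.T)]) q -
          (P[dl c.D1 c.D2 i | Inv (TT c.T) (c.W w)]) q| + |(P[dl c.D1 c.D2 i | Rt (TT c.T)]) q -
          (P[dl c.D1 c.D2 i | Inv (TT c.T) (c.W w * Dlt c.β)]) q|) ∂P := by
          refine integral_mono i1 (i2.add i3) fun q => ?_
          have := abs_sub ((P[dl c.D1 c.D2 i | Rt (TT c.T)]) q -
            (P[dl c.D1 c.D2 i | Inv (TT c.T) (c.W w)]) q) ((P[dl c.D1 c.D2 i | Rt (TT c.T)]) q -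
            (P[dl c.D1 c.D2 i | Inv (TT c.T) (c.W w * Dlt c.β)]) q)
          refine le_trans (le_of_eq ?_) this
          congr 1
          ring
        rw [integral_add i2 i3] at this
        linarith [e1 i, e2 i]
      have b3 : (c.k : ℝ) * ∑ i, ∫ q in A, |(P[dl c.D1 c.D2 i |
          Inv (TT c.T) (c.W w * Dlt c.β)]) q - (P[dl c.D1 c.D2 i | Inv (TT c.T) (c.W w)]) q| ∂P ≤
          c.k * (c.k * (2 * ε)) := by
        gcongr
        refine (sum_le_sum fun i _ => b2 i).trans ?_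
        simp
      have b4 : (c.k : ℝ) ^ 2 / w * P.real A ≤ ε := by
        have hp : P.real A ≤ 1 := measureReal_le_one
        calc (c.k : ℝ) ^ 2 / w * P.real A ≤ (c.k : ℝ) ^ 2 / w * 1 := by
              gcongr
          _ ≤ ε := by rw [mul_one]; exact a4
      have c1 : Lam (c.U w) (c.W w) P (TT c.T) c.β c.σ c.D1 A < ∫ q in A, c.e q.1 ∂P + ε := a5
      have c2 : Lam (c.U w) (c.W w) P (TT c.T) c.β c.σ c.D2 A < ∫ q in A, c.e q.2 ∂P + ε := a6
      have d' := b1.trans (add_le_add_left d _)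
      nlinarith [d', b3, b4, c1, c2]
    have fin : ∫ q in A, (M q - M q ^ 2) ∂P ≤ ∫ q in A, c.e q.1 ∂P + ∫ q in A, c.e q.2 ∂P := by
      refine le_of_forall_pos_le_add fun δ hδ => ?_
      have hC : 0 < 3 + 2 * (c.k : ℝ) ^ 2 + (1 + 2 * c.k) * c.k := by positivity
      have := est (δ / (3 + 2 * (c.k : ℝ) ^ 2 + (1 + 2 * c.k) * c.k)) (div_pos hδ hC)
      rwa [mul_div_cancel₀ _ hC.ne'] at this
    have i1 := hMi.integrableOn (s := A)
    have i2 := (hei _ he1).integrableOn (s := A)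
    have i3 := (hei _ he2).integrableOn (s := A)
    have : ∫ q in A, (M q - M q ^ 2 - c.e q.1 - c.e q.2) ∂P =
        ∫ q in A, (M q - M q ^ 2) ∂P - ∫ q in A, c.e q.1 ∂P - ∫ q in A, c.e q.2 ∂P := by
      have j1 := integral_sub (i1.sub i2) i3
      have j2 := integral_sub i1 i2
      simp only [Pi.sub_apply] at j1
      rw [j1, j2]
    rw [this]
    linarith

end Pool.Agent.H70.AG.DR

namespace Pool.Agent.H70.AG

open Pool.Agent.H67.AG

theorem pf_DR (hdw : T_DW) (hle : T_LE) (hra : T_RA) (hlv : T_LV) (_hul : T_UL) : T_DR :=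
  DR.pf_DR hdw hle hra hlv

end Pool.Agent.H70.AG
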